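import Pool.Agent.W84.T.Defs
import Pool.Agent.W56.FP.A0Q

/-! # Many primitive vectors in the class `1` modulo `4` -/

set_option autoImplicit false

namespace Pool.Agent.W318.T

open Finset Filter
open Pool.Agent.H376R2.MR (w)
open Pool.Agent.W78.GA
open Pool.Agent.W78.GC
open Pool.Agent.W84.FP
open Pool.Agent.W84.T

theorem bg_le (X Y : ℝ) (hX : 0 < X) (hY : X = Real.exp 1 * Y) (z : Qd 0 1) (hz : 0 < nm z) :
    bg Y z ≤ if 1 / 8 * X < (nm z : ℝ) then Real.exp 2 / X else 0 := by
  have hY0 : 0 < Y := by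
    have h1 : 0 < Real.exp 1 * Y := hY ▸ hX
    exact (pos_iff_pos_of_mul_pos h1).1 (Real.exp_pos 1)
  have hz' : (0 : ℝ) < nm z := by exact_mod_cast hz
  unfold bg w
  rcases le_or_gt 1 |Real.log (nm z) - Real.log Y| with h | h
  · rw [max_eq_left (by linarith), zero_div]
    split_ifs
    · positivity
    · exact le_rfl
  · have h1 : Real.log Y - 1 < Real.log (nm z) := by linarith [(abs_lt.1 h).1]
    have h2 : Y / Real.exp 1 < (nm z : ℝ) := by
      have h3 : Real.log (Y / Real.exp 1) < Real.log (nm z) := by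
        rw [Real.log_div hY0.ne' (Real.exp_pos 1).ne', Real.log_exp]
        exact h1
      exact (Real.log_lt_log_iff (by positivity) hz').1 h3
    have he2 : Real.exp 2 = Real.exp 1 * Real.exp 1 := by
      rw [← Real.exp_add]
      norm_num
    have h4 : X / Real.exp 2 < (nm z : ℝ) := by
      rw [hY, he2, mul_div_mul_left _ _ (Real.exp_pos 1).ne']
      exact h2
    have h8 : Real.exp 2 < 8 := by
      rw [he2]
      have := Real.exp_one_lt_d9
      have h0 := Real.exp_pos 1
      nlinarith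
    have h5 : 1 / 8 * X < (nm z : ℝ) := by
      refine lt_of_le_of_lt ?_ h4
      rw [div_eq_mul_inv, mul_comm]
      apply mul_le_mul_of_nonneg_left _ hX.le
      rw [one_mul]
      exact inv_anti₀ (Real.exp_pos 2) h8.le
    rw [if_pos h5]
    rw [div_le_div_iff₀ hz' hX]
    have h6 : max 0 (1 - |Real.log (nm z) - Real.log Y|) ≤ 1 := by
      apply max_le zero_le_one
      linarith [abs_nonneg (Real.log (nm z) - Real.log Y)]
    have h7 : X < Real.exp 2 * (nm z : ℝ) := by
      rw [div_lt_iff₀ (Real.exp_pos 2)] at h4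
      linarith
    calc max 0 (1 - |Real.log (nm z) - Real.log Y|) * X ≤ 1 * X := by gcongr
      _ ≤ Real.exp 2 * (nm z : ℝ) := by linarith

theorem cls : S_CLS := by
  classical
  obtain ⟨c₀, hc₀, Y₀, h⟩ := Pool.Agent.W56.FP.A0Q.a0q 4 (by norm_num) (dvd_refl 4)
  have hD : (0 : ℤ) ^ 2 < 4 * 1 := by norm_num
  refine ⟨c₀ / Real.exp 2, by positivity, Real.exp 1 * max Y₀ 1, fun X hX => ?_⟩
  have he : 0 < Real.exp 1 := Real.exp_pos 1
  set Y := X / Real.exp 1 with hYdef
  have hY : X = Real.exp 1 * Y := by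
    rw [hYdef]
    field_simp
  have hYY : max Y₀ 1 ≤ Y := by
    rw [hYdef, le_div_iff₀ he]
    linarith
  have hY1 : 1 ≤ Y := le_trans (le_max_right _ _) hYY
  have hX0 : 0 < X := by
    rw [hY]
    positivity
  have h1 := h Y (le_trans (le_max_left _ _) hYY)
  rw [← hY] at h1
  have h2 : ∑ z ∈ cball (c1 4) X, bg Y z ≤
      ∑ z ∈ cball (c1 4) X, if 1 / 8 * X < (nm z : ℝ) then Real.exp 2 / X else 0 := by
    refine sum_le_sum fun z hz => bg_le X Y hX0 hY z ?_
    unfold cball at hz
    have h3 := (mem_filter.1 hz).1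
    rw [mem_pball hD] at h3
    exact nm_pos hD (prim_ne_zero h3.1)
  rw [← sum_filter, sum_const, nsmul_eq_mul] at h2
  have h3 : (((cball (c1 4) X).filter (fun z => 1 / 8 * X < (nm z : ℝ))).card : ℝ) ≤
      (((pball 0 1 X).filter (fun z => 1 / 8 * X < (nm z : ℝ) ∧ c1 4 z)).card : ℝ) := by
    have h4 : ((cball (c1 4) X).filter (fun z => 1 / 8 * X < (nm z : ℝ))).card ≤
        ((pball 0 1 X).filter (fun z => 1 / 8 * X < (nm z : ℝ) ∧ c1 4 z)).card := by
      apply card_le_card
      intro z hz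
      unfold cball at hz
      simp only [mem_filter] at hz ⊢
      exact ⟨hz.1.1, hz.2, hz.1.2⟩
    exact_mod_cast h4
  have h5 : c₀ ≤ (((pball 0 1 X).filter (fun z => 1 / 8 * X < (nm z : ℝ) ∧ c1 4 z)).card : ℝ) *
      (Real.exp 2 / X) := by
    refine (h1.trans h2).trans ?_
    exact mul_le_mul_of_nonneg_right h3 (by positivity)
  have he2 : 0 < Real.exp 2 := Real.exp_pos 2
  have h6 : c₀ / Real.exp 2 * X ≤
      (((pball 0 1 X).filter (fun z => 1 / 8 * X < (nm z : ℝ) ∧ c1 4 z)).card : ℝ) := by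
    rw [mul_div_assoc'] at h5
    rw [le_div_iff₀ hX0] at h5
    rw [div_mul_eq_mul_div, div_le_iff₀ he2]
    exact h5
  convert h6

end Pool.Agent.W318.T
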